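import Pool.Agent.Lib.MP_5ffd28_gt.Cohen.Final

namespace Pool.Agent.Results.MP_5ffd28_gt.Consistent

open Pool.Agent.Shared.Forcing Pool.Agent.Lib.MP_23bd8d_gt Pool.Agent.Lib.MP_5ffd28_gt.Cohen

/-- There is a model of ZFC containing an infinite Tychonoff space `(X, T)` such that for no
subspace `S` of the real line with at least two points there is an open continuous homomorphism
of the free abelian topological group `A(X)` onto `A(S)`. -/
theorem result : ∃ (M : Type 2) (E : M → M → Prop), ModelZFC E ∧ ∃ w R L O X T : M,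
    IsOmega E w ∧ IsReal E w R L ∧ SubTop E R L R O ∧ IsTop E X T ∧ Tychonoff E X T R O ∧
    Inj E w X ∧ ∀ S TS G A TG i H B TH j h, Sub E S R → (∃ s t, E s S ∧ E t S ∧ s ≠ t) →
      SubTop E R L S TS → Free E X T G A TG i → Free E S TS H B TH j → Cts E h G TG H TH →
      Additive E h A B → (∀ y, E y H → ∃ x, Maps E h x y) → ¬ OpenMap E h TG TH :=
  model

end Pool.Agent.Results.MP_5ffd28_gt.Consistent
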